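import Pool.Agent.H105.AMA.Main
import Pool.Agent.H105.AMA.Inv

/-!
# The additivity of the meager-additive ideal can be smaller than its uniformity

* There is a ccc notion of forcing `P` all of whose conditions force the combinatorial sentence
  `PsiFor K L` (`PsiHolds P K L` is its literal translation into the forcing language): all
  families of reals indexed by `K` are captured for all partitions, but there are `K` many
  captured families of reals whose union is not captured.
* `PsiFor K L` implies `add(MA) < non(MA)`.

The notion of forcing is a finite support iteration of length `𝔠⁺` of two kinds of sigma-centred
posets: posets adding a coarser partition and a real which capture all reals of the earlier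
stages, and, for the infinite sets `g` of the ground model, posets adding the characteristic
function of a set which is thin with respect to all infinite subsets of `g` of the earlier stages.
-/

set_option autoImplicit false

namespace Pool.Agent.Results.MP_a38aea_lc.AddBelowNon

open Pool.Agent.H105.AMA Pool.Agent.W684.BMA

/-- (A) There are infinite `K`, a set `L` and a ccc notion of forcing `P` all of whose conditions
force the sentence `PsiFor K L`. (B) If `PsiFor K L` holds, then the additivity of the ideal of
the meager-additive sets is smaller than its uniformity. -/
theorem result :
    (∃ (K L P : Type) (_ : Preorder P), Infinite K ∧ Nonempty P ∧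
      (∀ A : Set P, (∀ p ∈ A, ∀ q ∈ A, p ≠ q → ¬ ∃ r, r ≤ p ∧ r ≤ q) → A.Countable) ∧
      ∀ p : P, p ∈ PsiHolds P K L) ∧
    (∀ K L : Type, PsiFor K L → additivity MASets < uniformity MASets) :=
  ⟨Pool.Agent.H105.AMA.exists_forcing, fun _ _ h => Pool.Agent.H105.AMA.additivity_lt h⟩

end Pool.Agent.Results.MP_a38aea_lc.AddBelowNon
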